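import Mathlib

set_option autoImplicit false

open scoped ENNReal ComplexOrder

namespace Pool.Agent.P.MP_2f0599_an

/-- The index set. -/
abbrev I : Type := ℕ × ℕ

/-- The space of summable families. -/
abbrev L1 : Type := lp (fun _ : I => ℂ) 1

/-- The algebra of bounded families. -/
abbrev Linf (B : Type) [NormedAddCommGroup B] : Type := lp (fun _ : I => B) ∞

/-- Point masses. -/
noncomputable def δ (i : I) : L1 := lp.single 1 i 1

theorem norm_δ (i : I) : ‖δ i‖ = 1 := by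
  simp [δ, lp.norm_single]

section lift

variable {B : Type} [NormedAddCommGroup B] [NormedSpace ℂ B]

/-- A bounded family as an element of the sup-normed space. -/
def mkInf (f : I → B) (C : ℝ) (h : ∀ i, ‖f i‖ ≤ C) : Linf B :=
  ⟨f, memℓp_infty ⟨C, by rintro _ ⟨i, rfl⟩; exact h i⟩⟩

omit [NormedSpace ℂ B] in
@[simp] theorem mkInf_apply (f : I → B) (C : ℝ) (h : ∀ i, ‖f i‖ ≤ C) (i : I) :
    mkInf f C h i = f i := rfl

omit [NormedSpace ℂ B] in
theorem norm_mkInf_le (f : I → B) (C : ℝ) (h : ∀ i, ‖f i‖ ≤ C) : ‖mkInf f C h‖ ≤ C :=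
  lp.norm_le_of_forall_le ((norm_nonneg _).trans (h (0, 0))) h

theorem ext1 {F G : L1 →L[ℂ] B} (h : ∀ i, F (δ i) = G (δ i)) : F = G := by
  apply lp.ext_continuousLinearMap (by simp)
  intro i
  ext
  exact h i

variable [CompleteSpace B]

/-- Integration of a bounded family against a summable one. -/
noncomputable def lift : Linf B →L[ℂ] L1 →L[ℂ] B :=
  lp.dualPairing ∞ 1 (fun _ : I => (ContinuousLinearMap.lsmul ℂ ℂ : ℂ →L[ℂ] B →L[ℂ] B).flip)
    (K := 1) (fun _ => by
      rw [ContinuousLinearMap.opNorm_flip]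
      exact ContinuousLinearMap.opNorm_lsmul_le)

theorem lift_apply (f : Linf B) (a : L1) : lift f a = ∑' i, a i • f i := rfl

theorem norm_lift_le (f : Linf B) : ‖lift f‖ ≤ ‖f‖ := by
  have : ‖(lift : Linf B →L[ℂ] L1 →L[ℂ] B)‖ ≤ ((1 : NNReal) : ℝ) := lp.norm_dualPairing _ _
  simpa using (lift : Linf B →L[ℂ] L1 →L[ℂ] B).le_of_opNorm_le this f

@[simp] theorem lift_δ (f : Linf B) (i : I) : lift f (δ i) = f i := by
  rw [lift_apply, tsum_eq_single i]
  · simp [δ]
  · intro j hj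
    simp [δ, lp.single_apply, Pi.single_eq_of_ne hj]

theorem hasSum_lift (f : Linf B) (a : L1) : HasSum (fun i => a i • f i) (lift f a) := by
  have h := (lp.hasSum_single (by simp) a).map (lift f) (lift f).continuous
  convert h using 1
  funext i
  have : lp.single 1 i (a i) = a i • δ i := by
    rw [δ, ← lp.single_smul, smul_eq_mul, mul_one]
  simp only [Function.comp_apply]
  rw [this, map_smul, lift_δ]

end lift

/-- The product of two point masses. -/
noncomputable def pp (s t : I) : L1 := (1 / 2 : ℂ) • (δ (s + t) + δ (s + t.swap))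

theorem norm_pp (s t : I) : ‖pp s t‖ ≤ 1 := by
  rw [pp, norm_smul]
  have := norm_add_le (δ (s + t)) (δ (s + t.swap))
  rw [norm_δ, norm_δ] at this
  norm_num
  linarith

/-- Left multiplication by a point mass. -/
noncomputable def mulδ (s : I) : L1 →L[ℂ] L1 := lift (mkInf (pp s) 1 (norm_pp s))

theorem norm_mulδ (s : I) : ‖mulδ s‖ ≤ 1 := (norm_lift_le _).trans (norm_mkInf_le _ _ _)

/-- The twisted convolution. -/
noncomputable def mulL : L1 →L[ℂ] L1 →L[ℂ] L1 := lift (mkInf mulδ 1 norm_mulδ)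

theorem norm_mulL : ‖mulL‖ ≤ 1 := (norm_lift_le _).trans (norm_mkInf_le _ _ _)

@[simp] theorem mulL_δ (s t : I) : mulL (δ s) (δ t) = pp s t := by
  simp [mulL, mulδ]

theorem mulL_assoc (a b c : L1) : mulL (mulL a b) c = mulL a (mulL b c) := by
  have h1 : ∀ s t : I, mulL (mulL (δ s) (δ t)) = (mulL (δ s)) ∘L (mulL (δ t)) := by
    intro s t
    apply ext1
    intro u
    simp only [mulL_δ, pp, map_smul, map_add, smul_apply,
      add_apply, ContinuousLinearMap.comp_apply, Prod.swap_add, Prod.swap_swap,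
      add_assoc, smul_add]
    abel
  have h2 : ∀ s : I, (mulL.flip c) ∘L (mulL (δ s)) = (mulL (δ s)) ∘L (mulL.flip c) := by
    intro s
    apply ext1
    intro t
    exact congrArg (fun F : L1 →L[ℂ] L1 => F c) (h1 s t)
  have h3 : (mulL.flip c) ∘L (mulL.flip b) = mulL.flip (mulL b c) := by
    apply ext1
    intro s
    exact congrArg (fun F : L1 →L[ℂ] L1 => F b) (h2 s)
  exact congrArg (fun F : L1 →L[ℂ] L1 => F a) h3

theorem lift_mulL (u v w : Linf ℂ) (h : ∀ s t : I, (u (s + t) + u (s + t.swap)) / 2 = v s * w t)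
    (a b : L1) : lift u (mulL a b) = lift v a * lift w b := by
  have h1 : ∀ s : I, (lift u) ∘L (mulL (δ s)) = v s • lift w := by
    intro s
    apply ext1
    intro t
    simp only [ContinuousLinearMap.comp_apply, mulL_δ, pp, map_smul, map_add, lift_δ,
      smul_apply, smul_eq_mul, ← h]
    ring
  have h2 : (lift u) ∘L (mulL.flip b) = lift w b • lift v := by
    apply ext1
    intro s
    have := congrArg (fun F : L1 →L[ℂ] ℂ => F b) (h1 s)
    simp only [ContinuousLinearMap.comp_apply, smul_apply, smul_eq_mul] at this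
    simp only [ContinuousLinearMap.comp_apply, ContinuousLinearMap.flip_apply, this,
      smul_apply, smul_eq_mul, lift_δ]
    ring
  have := congrArg (fun F : L1 →L[ℂ] ℂ => F a) h2
  simp only [ContinuousLinearMap.comp_apply, ContinuousLinearMap.flip_apply,
    smul_apply, smul_eq_mul] at this
  rw [this, mul_comm]

/-- The duality between bounded and summable families. -/
noncomputable def dualEquiv : Linf ℂ ≃ₗᵢ[ℂ] (L1 →L[ℂ] ℂ) :=
  LinearIsometryEquiv.ofSurjective
    { toLinearMap := (lift : Linf ℂ →L[ℂ] L1 →L[ℂ] ℂ)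
      norm_map' := fun f => by
        apply le_antisymm (norm_lift_le f)
        apply lp.norm_le_of_forall_le (norm_nonneg _)
        intro i
        have := (lift f).le_opNorm (δ i)
        rwa [lift_δ, norm_δ, mul_one] at this }
    (fun g => ⟨mkInf (fun i => g (δ i)) ‖g‖ (fun i => by
        have := g.le_opNorm (δ i)
        rwa [norm_δ, mul_one] at this), ext1 fun i => lift_δ _ i⟩)

theorem dualEquiv_apply (f : Linf ℂ) : dualEquiv f = lift f := rfl

theorem shift_bound (g : ℕ → ℂ) (C : ℝ) (hg : ∀ i, ‖g i‖ ≤ C) (a n : ℕ) :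
    ‖∑ i ∈ Finset.range n, g (a + i) - ∑ i ∈ Finset.range n, g i‖ ≤ 2 * a * C := by
  have h1 := Finset.sum_range_add g a n
  have h2 := Finset.sum_range_add g n a
  rw [add_comm n a, h1] at h2
  have h3 : ∑ i ∈ Finset.range n, g (a + i) - ∑ i ∈ Finset.range n, g i =
      ∑ i ∈ Finset.range a, g (n + i) - ∑ i ∈ Finset.range a, g i := by
    linear_combination h2
  rw [h3]
  have h4 : ∀ k : ℕ → ℂ, (∀ i, ‖k i‖ ≤ C) → ‖∑ i ∈ Finset.range a, k i‖ ≤ a * C := by
    intro k hk
    refine (norm_sum_le _ _).trans ?_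
    refine (Finset.sum_le_sum fun i _ => hk i).trans ?_
    simp
  have := norm_sub_le (∑ i ∈ Finset.range a, g (n + i)) (∑ i ∈ Finset.range a, g i)
  have h5 := h4 (fun i => g (n + i)) (fun i => hg _)
  have h6 := h4 g hg
  linarith

theorem shift_bound2 (g : I → ℂ) (C : ℝ) (hg : ∀ i, ‖g i‖ ≤ C) (s : I) (n : ℕ) :
    ‖∑ i ∈ Finset.range n, ∑ k ∈ Finset.range n, g (s + (i, k)) -
      ∑ i ∈ Finset.range n, ∑ k ∈ Finset.range n, g (i, k)‖ ≤ n * (2 * (s.1 + s.2) * C) := by
  obtain ⟨a, b⟩ := s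
  have e : ∑ i ∈ Finset.range n, ∑ k ∈ Finset.range n, g ((a, b) + (i, k)) -
      ∑ i ∈ Finset.range n, ∑ k ∈ Finset.range n, g (i, k) =
      ∑ i ∈ Finset.range n, (∑ k ∈ Finset.range n, g (a + i, b + k) -
        ∑ k ∈ Finset.range n, g (a + i, k)) +
      ∑ k ∈ Finset.range n, (∑ i ∈ Finset.range n, g (a + i, k) -
        ∑ i ∈ Finset.range n, g (i, k)) := by
    rw [Finset.sum_sub_distrib, Finset.sum_sub_distrib,
      Finset.sum_comm (f := fun k i => g (a + i, k)), Finset.sum_comm (f := fun k i => g (i, k))]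
    simp only [Prod.mk_add_mk]
    ring
  rw [e]
  have h1 : ‖∑ i ∈ Finset.range n, (∑ k ∈ Finset.range n, g (a + i, b + k) -
        ∑ k ∈ Finset.range n, g (a + i, k))‖ ≤ n * (2 * b * C) := by
    refine (norm_sum_le _ _).trans ?_
    refine (Finset.sum_le_sum fun i _ =>
      shift_bound (fun k => g (a + i, k)) C (fun _ => hg _) b n).trans ?_
    simp
  have h2 : ‖∑ k ∈ Finset.range n, (∑ i ∈ Finset.range n, g (a + i, k) -
        ∑ i ∈ Finset.range n, g (i, k))‖ ≤ n * (2 * a * C) := by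
    refine (norm_sum_le _ _).trans ?_
    refine (Finset.sum_le_sum fun k _ =>
      shift_bound (fun i => g (i, k)) C (fun _ => hg _) a n).trans ?_
    simp
  refine (norm_add_le _ _).trans ?_
  simp only
  nlinarith

/-- Averages over squares. -/
noncomputable def η (n : ℕ) : L1 :=
  (1 / ((n + 1 : ℕ) : ℂ) ^ 2) • ∑ i ∈ Finset.range (n + 1), ∑ k ∈ Finset.range (n + 1), δ (i, k)

theorem apply_η (f : L1 →L[ℂ] ℂ) (n : ℕ) : f (η n) = (1 / ((n + 1 : ℕ) : ℂ) ^ 2) *
    ∑ i ∈ Finset.range (n + 1), ∑ k ∈ Finset.range (n + 1), f (δ (i, k)) := by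
  simp only [η, map_smul, map_sum, smul_eq_mul]

theorem norm_η (n : ℕ) : ‖η n‖ ≤ 1 := by
  rw [η, norm_smul]
  have h : ‖∑ i ∈ Finset.range (n + 1), ∑ k ∈ Finset.range (n + 1), δ (i, k)‖
      ≤ ((n + 1 : ℕ) : ℝ) ^ 2 := by
    refine (norm_sum_le _ _).trans ?_
    refine (Finset.sum_le_sum fun i _ => norm_sum_le _ _).trans ?_
    simp only [norm_δ, Finset.sum_const, Finset.card_range, nsmul_eq_mul, mul_one, sq, le_refl]
  have hpos : (0 : ℝ) < ((n + 1 : ℕ) : ℝ) ^ 2 := by positivity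
  rw [norm_div, norm_one, norm_pow, Complex.norm_natCast, one_div, inv_mul_le_iff₀ hpos, mul_one]
  exact h

theorem one_η (n : ℕ) : lift (1 : Linf ℂ) (η n) = 1 := by
  rw [apply_η]
  have : ((n + 1 : ℕ) : ℂ) ≠ 0 := by exact_mod_cast Nat.succ_ne_zero n
  simp only [lift_δ, lp.infty_coeFn_one, Pi.one_apply, Finset.sum_const, Finset.card_range,
    nsmul_eq_mul, mul_one]
  field_simp

theorem tendsto_η (f : L1 →L[ℂ] ℂ) (s : I) :
    Filter.Tendsto (fun n => f (mulL (δ s) (η n)) - f (η n)) Filter.atTop (nhds 0) := by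
  have hf : ∀ i, ‖f (δ i)‖ ≤ ‖f‖ := fun i => by
    have := f.le_opNorm (δ i)
    rwa [norm_δ, mul_one] at this
  have key : ∀ n, ‖f (mulL (δ s) (η n)) - f (η n)‖ ≤
      (2 * (s.1 + s.2) * ‖f‖) * (1 / ((n : ℝ) + 1)) := by
    intro n
    have e1 : f (mulL (δ s) (η n)) = (1 / ((n + 1 : ℕ) : ℂ) ^ 2) *
        ∑ i ∈ Finset.range (n + 1), ∑ k ∈ Finset.range (n + 1), f (δ (s + (i, k))) := by
      have := apply_η (f ∘L (mulL (δ s))) n
      simp only [ContinuousLinearMap.comp_apply, mulL_δ, pp, map_smul, map_add, smul_eq_mul,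
        Prod.swap_prod_mk] at this
      rw [this]
      congr 1
      simp only [← Finset.mul_sum, Finset.sum_add_distrib]
      rw [Finset.sum_comm (f := fun i k => f (δ (s + (k, i))))]
      ring
    rw [e1, apply_η, ← mul_sub, norm_mul]
    have h := shift_bound2 (fun i => f (δ i)) ‖f‖ hf s (n + 1)
    have hpos : (0 : ℝ) < ((n + 1 : ℕ) : ℝ) := by positivity
    rw [norm_div, norm_one, norm_pow, Complex.norm_natCast]
    refine (mul_le_mul_of_nonneg_left h (by positivity)).trans (le_of_eq ?_)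
    push_cast
    field_simp
  rw [tendsto_zero_iff_norm_tendsto_zero]
  refine squeeze_zero (fun _ => norm_nonneg _) key ?_
  simpa using tendsto_one_div_add_atTop_nhds_zero_nat.const_mul (2 * ((s.1 : ℝ) + s.2) * ‖f‖)

theorem exists_mean : ∃ m : (L1 →L[ℂ] ℂ) →L[ℂ] ℂ, (∀ f, ‖m f‖ ≤ ‖f‖) ∧ m (lift 1) = 1 ∧
    ∀ (f : L1 →L[ℂ] ℂ) (a : L1), m (f ∘L (mulL a)) = lift 1 a * m f := by
  have hb : ∀ (f : L1 →L[ℂ] ℂ) (n : ℕ), ‖f (η n)‖ ≤ ‖f‖ := fun f n => by
    have := f.le_of_opNorm_le le_rfl (η n)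
    have h2 := norm_η n
    nlinarith [norm_nonneg f]
  have hex : ∀ f : L1 →L[ℂ] ℂ, ∃ z : ℂ, ‖z‖ ≤ ‖f‖ ∧
      Filter.Tendsto (fun n => f (η n)) (Filter.hyperfilter ℕ) (nhds z) := by
    intro f
    obtain ⟨z, hz, h⟩ := (isCompact_closedBall (0 : ℂ) ‖f‖).ultrafilter_le_nhds
      ((Filter.hyperfilter ℕ).map fun n => f (η n)) (by
        rw [Ultrafilter.coe_map, Filter.le_principal_iff, Filter.mem_map]
        exact Filter.univ_mem' fun n => mem_closedBall_zero_iff.2 (hb f n))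
    exact ⟨z, mem_closedBall_zero_iff.1 hz, h⟩
  choose μ hμ1 hμ2 using hex
  let m₀ : (L1 →L[ℂ] ℂ) →ₗ[ℂ] ℂ :=
    { toFun := μ
      map_add' := fun f g => tendsto_nhds_unique (hμ2 (f + g)) ((hμ2 f).add (hμ2 g))
      map_smul' := fun c f => tendsto_nhds_unique (hμ2 (c • f)) ((hμ2 f).const_smul c) }
  let m : (L1 →L[ℂ] ℂ) →L[ℂ] ℂ := m₀.mkContinuous 1 (fun f => by rw [one_mul]; exact hμ1 f)
  have hm : ∀ f, m f = μ f := fun f => rfl
  refine ⟨m, fun f => hμ1 f, ?_, ?_⟩
  · rw [hm]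
    refine tendsto_nhds_unique (hμ2 _) ?_
    simp only [one_η]
    exact tendsto_const_nhds
  · intro f a
    have h : m ∘L ((ContinuousLinearMap.compL ℂ L1 L1 ℂ f) ∘L mulL) = m f • lift 1 := by
      apply ext1
      intro s
      simp only [ContinuousLinearMap.comp_apply, ContinuousLinearMap.compL_apply,
        smul_apply, lift_δ, lp.infty_coeFn_one, Pi.one_apply, smul_eq_mul,
        mul_one, hm]
      have h1 := ((hμ2 (f ∘L (mulL (δ s)))).sub (hμ2 f))
      have h2 := (tendsto_η f s).mono_left (Nat.hyperfilter_le_atTop)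
      exact sub_eq_zero.1 (tendsto_nhds_unique h1 h2)
    have := congrArg (fun F : L1 →L[ℂ] ℂ => F a) h
    simp only [ContinuousLinearMap.comp_apply, ContinuousLinearMap.compL_apply,
      smul_apply, smul_eq_mul] at this
    rw [this, mul_comm]

end Pool.Agent.P.MP_2f0599_an
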