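import Mathlib

set_option autoImplicit false

open scoped ComplexOrder

namespace Pool.Agent.P.MP_2f0599_an

section algebra

variable {A M : Type} [NonUnitalNormedRing A] [NormedSpace ℂ A] [CStarAlgebra M]

/-- `ev` is a duality making the C*-algebra `M` the dual of `A`, the identity of `M` is
multiplicative on `A`, and `op f a` is the module action `⟨b, f · a⟩ = ⟨a b, f⟩`. -/
def IsFAlg (ev : M → A → ℂ) (op : M → A → M) : Prop :=
  (∃ j : M ≃ₗᵢ[ℂ] StrongDual ℂ A, ∀ f a, j f a = ev f a) ∧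
  (∀ a b, ev 1 (a * b) = ev 1 a * ev 1 b) ∧ ∀ f a b, ev (op f a) b = ev f (a * b)

omit [NonUnitalNormedRing A] [NormedSpace ℂ A] in
/-- `P₁(A)`: the positive elements of the predual taking the value `1` at the identity. -/
def P1 (ev : M → A → ℂ) : Set A :=
  {a | (∀ x : M, 0 ≤ ev (star x * x) a) ∧ ev 1 a = 1}

omit [NormedSpace ℂ A] in
/-- `WAP(A)`: the `f` for which `a ↦ f · a` is a weakly compact operator, that is, a compact operator
into the dual carrying its weak topology. -/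
def WAP (op : M → A → M) : Set M :=
  {f | IsCompactOperator fun a : A => toWeakSpace ℂ M (op f a)}

omit [NonUnitalNormedRing A] [NormedSpace ℂ A] in
/-- `W` is a subspace of the dual carrying a topological left invariant mean. -/
def HasTLIM (op : M → A → M) (W : Set M) (S : Set A) : Prop :=
  ∃ (V : Submodule ℂ M) (m : V →L[ℂ] ℂ), (V : Set M) = W ∧ ‖m‖ = 1 ∧
    (∃ h : 1 ∈ V, m ⟨1, h⟩ = 1) ∧ ∀ a ∈ S, ∀ f : V, ∃ h : op f a ∈ V, m ⟨op f a, h⟩ = m f

end algebra

section representation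

variable {𝕜 S E : Type} [Field 𝕜] [Mul S] [TopologicalSpace S] [AddCommGroup E] [Module 𝕜 E]
  [TopologicalSpace E]

variable (𝕜) in
/-- The `n`-dimensional subspaces contained in `X`. -/
def Ln (n : ℕ) (X : Set E) : Set (Submodule 𝕜 E) :=
  {L | Module.finrank 𝕜 L = n ∧ (L : Set E) ⊆ X}

/-- The hypotheses of the invariant subspace property on a representation `T`, a set `X` and a
subspace `H`. -/
def Hyp (n : ℕ) (T : S →ₙ* Module.End 𝕜 E) (X : Set E) (H : Submodule 𝕜 E) : Prop :=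
  (∀ K : Set E, IsCompact K →
    ∀ g ∈ closure (Set.range fun s : S => fun x : K => T s x), Continuous g) ∧
  (∀ x : E, Continuous fun s : S => T s x) ∧
  (Ln 𝕜 n X).Nonempty ∧ (∀ s : S, ∀ L ∈ Ln 𝕜 n X, L.map (T s) ∈ Ln 𝕜 n X) ∧
  IsClosed (H : Set E) ∧ (∀ s : S, H.map (T s) ≤ H) ∧ Module.finrank 𝕜 (E ⧸ H) = n ∧
  ∀ x : E, IsCompact ({y | y - x ∈ H} ∩ X)

end representation

/-- The invariant subspace property, weakened by also assuming joint continuity of the
representation and convexity of the slices. -/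
def WeakFW (𝕜 S : Type) [RCLike 𝕜] [Mul S] [TopologicalSpace S] (n : ℕ) : Prop :=
  ∀ (E : Type) [AddCommGroup E] [Module 𝕜 E] [Module ℝ E] [IsScalarTower ℝ 𝕜 E]
    [TopologicalSpace E] [IsTopologicalAddGroup E] [ContinuousSMul 𝕜 E] [LocallyConvexSpace ℝ E]
    [T2Space E] (T : S →ₙ* Module.End 𝕜 E) (X : Set E) (H : Submodule 𝕜 E),
    Hyp n T X H → (Continuous fun p : S × E => T p.1 p.2) →
    (∀ x : E, Convex ℝ ({y | y - x ∈ H} ∩ X)) → ∃ L ∈ Ln 𝕜 n X, ∀ s : S, L.map (T s) = L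

end Pool.Agent.P.MP_2f0599_an
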