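import Mathlib
import Pool.Agent.P.MP_2f0599_an.Defs

set_option autoImplicit false

namespace Pool.Agent.P.MP_2f0599_an

/-- The invariant subspace property, weakened by also assuming that the space is finite
dimensional, the representation is jointly continuous and equicontinuous, the slices are convex,
and every orbit map `s ↦ T s x` is the restriction of a continuous real-linear map on the algebra
(so it is affine and uniformly continuous on `S`). -/
def LinFW (𝕜 : Type) [RCLike 𝕜] {A : Type} [NonUnitalNormedRing A] [NormedSpace ℂ A]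
    (S : Subsemigroup A) (n : ℕ) : Prop :=
  ∀ (E : Type) [AddCommGroup E] [Module 𝕜 E] [Module ℝ E] [IsScalarTower ℝ 𝕜 E]
    [TopologicalSpace E] [IsTopologicalAddGroup E] [ContinuousSMul 𝕜 E] [LocallyConvexSpace ℝ E]
    [T2Space E] [FiniteDimensional 𝕜 E] (T : S →ₙ* Module.End 𝕜 E) (X : Set E)
    (H : Submodule 𝕜 E),
    Hyp n T X H → (Continuous fun p : S × E => T p.1 p.2) →
    (∀ U ∈ nhds (0 : E), ∃ V ∈ nhds (0 : E), ∀ s : S, ∀ x ∈ V, T s x ∈ U) →
    (∀ x : E, Convex ℝ ({y | y - x ∈ H} ∩ X)) →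
    (∀ x : E, ∃ R : A →L[ℝ] E, ∀ s : S, T s x = R s) →
    ∃ L ∈ Ln 𝕜 n X, ∀ s : S, L.map (T s) = L

end Pool.Agent.P.MP_2f0599_an
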