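import Mathlib
import Pool.Agent.P.MP_2f0599_an.Defs

set_option autoImplicit false

namespace Pool.Agent.P.MP_2f0599_an

/-- The invariant subspace property, weakened by also assuming that every `T s` is continuous, the
representation is jointly continuous on `S × X` and acts trivially on `E ⧸ H`, every orbit map
`s ↦ T s x` is uniformly continuous, and the slices are convex. -/
def UnifFW (𝕜 S : Type) [RCLike 𝕜] [Mul S] [UniformSpace S] (n : ℕ) : Prop :=
  ∀ (E : Type) [AddCommGroup E] [Module 𝕜 E] [Module ℝ E] [IsScalarTower ℝ 𝕜 E]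
    [TopologicalSpace E] [IsTopologicalAddGroup E] [ContinuousSMul 𝕜 E] [LocallyConvexSpace ℝ E]
    [T2Space E] (T : S →ₙ* Module.End 𝕜 E) (X : Set E) (H : Submodule 𝕜 E),
    Hyp n T X H → (∀ s : S, Continuous (T s)) →
    ContinuousOn (fun p : S × E => T p.1 p.2) (Set.univ ×ˢ X) →
    (∀ (s : S) (x : E), T s x - x ∈ H) →
    (∀ x : E, Filter.Tendsto (fun p : S × S => T p.1 x - T p.2 x) (uniformity S) (nhds 0)) →
    (∀ x : E, Convex ℝ ({y | y - x ∈ H} ∩ X)) →
    ∃ L ∈ Ln 𝕜 n X, ∀ s : S, L.map (T s) = L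

end Pool.Agent.P.MP_2f0599_an
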