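import Mathlib
import Pool.Agent.P.MP_2f0599_an.Defs
import Pool.Agent.P.MP_2f0599_an.Plane
import Pool.Agent.P.MP_2f0599_an.Algebra

set_option autoImplicit false

open scoped ENNReal ComplexOrder

namespace Pool.Agent.P.MP_2f0599_an

section general

variable {A M : Type} [NonUnitalNormedRing A] [NormedSpace ℂ A] [IsScalarTower ℂ A A]
  [SMulCommClass ℂ A A] [CStarAlgebra M] {ev : M → A → ℂ} {op : M → A → M}

omit [NonUnitalNormedRing A] [NormedSpace ℂ A] [IsScalarTower ℂ A A] [SMulCommClass ℂ A A] in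
theorem hasTLIM_of_mean {S : Set A} (V : Submodule ℂ M) (h1 : 1 ∈ V)
    (hinv : ∀ f ∈ V, ∀ a, op f a ∈ V) (m : M →L[ℂ] ℂ) (hm : ∀ f, ‖m f‖ ≤ ‖f‖) (hm1 : m 1 = 1)
    (hmi : ∀ a ∈ S, ∀ f, m (op f a) = m f) : HasTLIM op V S := by
  refine ⟨V, m ∘L V.subtypeL, rfl, le_antisymm ?_ ?_, ⟨h1, hm1⟩,
    fun a ha f => ⟨hinv _ f.2 a, hmi a ha f⟩⟩
  · exact ContinuousLinearMap.opNorm_le_bound _ zero_le_one fun f => by
      rw [one_mul]; exact hm f
  · have h2 := (m ∘L V.subtypeL).le_opNorm ⟨1, h1⟩
    have h3 : (m ∘L V.subtypeL) ⟨1, h1⟩ = 1 := hm1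
    have h4 : ‖(⟨1, h1⟩ : V)‖ ≤ 1 := by
      change ‖(1 : M)‖ ≤ 1
      rcases subsingleton_or_nontrivial M with h | h
      · rw [Subsingleton.elim (1 : M) 0, norm_zero]; exact zero_le_one
      · rw [CStarRing.norm_one]
    rw [h3, norm_one] at h2
    nlinarith [norm_nonneg (m ∘L V.subtypeL)]

theorem hasTLIM_WAP (hF : IsFAlg ev op) {S : Set A} (m : M →L[ℂ] ℂ) (hm : ∀ f, ‖m f‖ ≤ ‖f‖)
    (hm1 : m 1 = 1) (hmi : ∀ a ∈ S, ∀ f, m (op f a) = m f) : HasTLIM op (WAP op) S := by
  obtain ⟨⟨j, hj⟩, he, hop⟩ := hF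
  have ext : ∀ f g : M, (∀ b, ev f b = ev g b) → f = g := by
    intro f g h
    apply j.injective
    ext b
    rw [hj, hj, h]
  have hadd : ∀ f g a, op (f + g) a = op f a + op g a := fun f g a => ext _ _ fun b => by
    rw [hop, ← hj, ← hj, map_add, map_add, add_apply, add_apply, hj, hj, hj, hj, hop, hop]
  have hsmul : ∀ (c : ℂ) f a, op (c • f) a = c • op f a := fun c f a => ext _ _ fun b => by
    rw [hop, ← hj, ← hj, map_smul, map_smul, smul_apply, smul_apply, hj, hj, hop]
  have hzero : ∀ a, op 0 a = 0 := fun a => by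
    have := hsmul 0 0 a
    rwa [zero_smul, zero_smul] at this
  have hassoc : ∀ f a b, op (op f a) b = op f (a * b) := fun f a b => ext _ _ fun c => by
    rw [hop, hop, hop, mul_assoc]
  have hone : ∀ a, op 1 a = j 1 a • (1 : M) := fun a => ext _ _ fun b => by
    rw [hop, he, ← hj (_ • _), map_smul, smul_apply, hj, hj, smul_eq_mul]
  let V : Submodule ℂ M :=
    { carrier := WAP op
      zero_mem' := by
        change IsCompactOperator fun a : A => toWeakSpace ℂ M (op 0 a)
        simp only [hzero, map_zero]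
        exact isCompactOperator_zero
      add_mem' := fun {f g} hf hg => by
        change IsCompactOperator fun a : A => toWeakSpace ℂ M (op (f + g) a)
        simp only [hadd, map_add]
        exact IsCompactOperator.add hf hg
      smul_mem' := fun c f hf => by
        change IsCompactOperator fun a : A => toWeakSpace ℂ M (op (c • f) a)
        simp only [hsmul, map_smul]
        exact IsCompactOperator.smul hf c }
  refine hasTLIM_of_mean V ?_ ?_ m hm hm1 hmi
  · change IsCompactOperator fun b : A => toWeakSpace ℂ M (op 1 b)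
    simp only [hone, map_smul]
    refine ⟨(fun c : ℂ => c • toWeakSpace ℂ M 1) '' Metric.closedBall 0 1, ?_, ?_⟩
    · exact (isCompact_closedBall _ _).image (continuous_id.smul continuous_const)
    · have h2 : (j 1) ⁻¹' Metric.closedBall 0 1 ∈ nhds (0 : A) := by
        apply (j 1).continuous.continuousAt.preimage_mem_nhds
        rw [map_zero]
        exact Metric.closedBall_mem_nhds _ one_pos
      exact Filter.mem_of_superset h2 fun b hb => ⟨j 1 b, hb, rfl⟩
  · intro f hf a
    have h : IsCompactOperator fun b : A => toWeakSpace ℂ M (op f b) := hf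
    have h2 := h.comp_clm (ContinuousLinearMap.mul ℂ A a)
    change IsCompactOperator fun b : A => toWeakSpace ℂ M (op (op f a) b)
    simp only [hassoc]
    exact h2

end general

/-- The algebra of the example. -/
def Alg : Type := L1

noncomputable instance : NonUnitalNormedRing Alg :=
  { (inferInstanceAs (NormedAddCommGroup L1) : NormedAddCommGroup Alg) with
    mul := fun a b => mulL a b
    left_distrib := fun (a b c : L1) => (mulL a).map_add b c
    right_distrib := fun a b c => by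
      change mulL ((show L1 from a) + (show L1 from b)) c = mulL a c + mulL b c
      rw [map_add]; rfl
    zero_mul := fun a => by
      change mulL 0 a = 0
      rw [map_zero]; rfl
    mul_zero := fun a => map_zero (mulL a)
    mul_assoc := mulL_assoc
    norm_mul_le := fun a b => by
      have := mulL.le_of_opNorm₂_le_of_le norm_mulL (le_refl ‖(show L1 from a)‖)
        (le_refl ‖(show L1 from b)‖)
      rw [one_mul] at this
      exact this }

noncomputable instance : NormedSpace ℂ Alg := inferInstanceAs (NormedSpace ℂ L1)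

instance : CompleteSpace Alg := inferInstanceAs (CompleteSpace L1)

instance : IsScalarTower ℂ Alg Alg :=
  ⟨fun c a b => by
    change mulL (c • (show L1 from a)) b = c • mulL a b
    rw [map_smul]; rfl⟩

instance : SMulCommClass ℂ Alg Alg :=
  ⟨fun c a b => (map_smul (mulL a) c b).symm⟩

/-- The duality for the algebra of the example. -/
noncomputable def jj : Linf ℂ ≃ₗᵢ[ℂ] StrongDual ℂ Alg := dualEquiv

theorem jj_apply (x : Linf ℂ) (a : Alg) : jj x a = lift x (show L1 from a) := rfl

theorem mul_def (a b : Alg) : a * b = mulL a b := rfl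

theorem jj_one_mul (a b : Alg) : jj 1 (a * b) = jj 1 a * jj 1 b :=
  lift_mulL 1 1 1 (fun s t => by simp) a b

theorem coeff_nonneg {a : L1} (ha : ∀ x : Linf ℂ, 0 ≤ lift (star x * x) a) (i : I) : 0 ≤ a i := by
  have h := ha (lp.single ∞ i 1)
  rw [lift_apply, tsum_eq_single i] at h
  · simpa using h
  · intro k hk
    simp [lp.single_apply, Pi.single_eq_of_ne hk]

theorem lift_nonneg {a : L1} (ha : ∀ i, 0 ≤ a i) {u : Linf ℂ} (hu : ∀ i, 0 ≤ u i) :
    0 ≤ lift u a :=
  (hasSum_lift u a).nonneg fun i => mul_nonneg (ha i) (hu i)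

theorem lift_mul_nonneg {a b : L1} (ha : ∀ i, 0 ≤ a i) (hb : ∀ i, 0 ≤ b i) {u : Linf ℂ}
    (hu : ∀ i, 0 ≤ u i) : 0 ≤ lift u (mulL a b) := by
  have h1 : ∀ s : I, 0 ≤ lift u (mulδ s b) := by
    intro s
    have h := (hasSum_lift (mkInf (pp s) 1 (norm_pp s)) b).map (lift u) (lift u).continuous
    refine h.nonneg fun t => ?_
    simp only [Function.comp_apply, mkInf_apply, pp, map_smul, map_add, lift_δ, smul_eq_mul]
    refine mul_nonneg (hb t) (mul_nonneg ?_ (add_nonneg (hu _) (hu _)))
    positivity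
  have h := (hasSum_lift (mkInf mulδ 1 norm_mulδ) a).map
    ((lift u) ∘L (ContinuousLinearMap.apply ℂ L1 b)) (ContinuousLinearMap.continuous _)
  refine h.nonneg fun s => ?_
  simp only [Function.comp_apply, mkInf_apply, map_smul, smul_eq_mul]
  exact mul_nonneg (ha s) (h1 s)

/-- The semigroup of normal states of the example. -/
def SS : Subsemigroup Alg where
  carrier := P1 fun f a => jj f a
  mul_mem' := by
    rintro a b ⟨ha, ha'⟩ ⟨hb, hb'⟩
    refine ⟨fun x => ?_, by
      have h1 : jj 1 a = 1 := ha'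
      have h2 : jj 1 b = 1 := hb'
      change jj 1 (a * b) = 1
      rw [jj_one_mul, h1, h2, mul_one]⟩
    exact lift_mul_nonneg (coeff_nonneg ha) (coeff_nonneg hb) fun i => star_mul_self_nonneg (x i)

theorem δ_mem (i : I) : (show Alg from δ i) ∈ SS :=
  ⟨fun x => by
    change 0 ≤ lift (star x * x) (δ i)
    rw [lift_δ]
    exact star_mul_self_nonneg (x i), by
    change lift (1 : Linf ℂ) (δ i) = 1
    rw [lift_δ]; rfl⟩

/-- The module action on the dual of the example. -/
noncomputable def opp (f : Linf ℂ) (a : Alg) : Linf ℂ :=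
  dualEquiv.symm (lift f ∘L mulL a)

theorem lift_opp (f : Linf ℂ) (a : Alg) : lift (opp f a) = lift f ∘L mulL a :=
  dualEquiv.apply_symm_apply _

theorem isFAlg : IsFAlg (fun f a => jj f a) opp :=
  ⟨⟨jj, fun _ _ => rfl⟩, jj_one_mul, fun f a b => by
    change lift (opp f a) (show L1 from b) = lift f (mulL a b)
    rw [lift_opp]; rfl⟩

theorem hasTLIM_both : HasTLIM opp (WAP opp) SS ∧ HasTLIM opp Set.univ SS := by
  obtain ⟨m, h1, h2, h3⟩ := exists_mean
  have g1 : ∀ f : Linf ℂ, ‖(m ∘L lift) f‖ ≤ ‖f‖ := fun f => (h1 _).trans (norm_lift_le f)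
  have g3 : ∀ a ∈ (SS : Set Alg), ∀ f, (m ∘L lift) (opp f a) = (m ∘L lift) f := by
    intro a ha f
    have := h3 (lift f) a
    have h4 : lift (1 : Linf ℂ) (show L1 from a) = 1 := ha.2
    rw [h4, one_mul, ← lift_opp] at this
    exact this
  exact ⟨hasTLIM_WAP isFAlg (m ∘L lift) g1 h2 g3,
    hasTLIM_of_mean ⊤ trivial (fun _ _ _ => trivial) (m ∘L lift) g1 h2 g3⟩

/-- First character of the index monoid. -/
noncomputable def c1 : Linf ℂ := mkInf (fun i => (1 / 2 : ℂ) ^ i.1) 1 (fun i => by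
  rw [norm_pow]; exact pow_le_one₀ (norm_nonneg _) (by norm_num))

/-- Second character of the index monoid. -/
noncomputable def c2 : Linf ℂ := mkInf (fun i => (1 / 2 : ℂ) ^ i.2) 1 (fun i => by
  rw [norm_pow]; exact pow_le_one₀ (norm_nonneg _) (by norm_num))

theorem c1_pos (i : I) : 0 < c1 i := by
  simp only [c1, mkInf_apply]; positivity

theorem c2_pos (i : I) : 0 < c2 i := by
  simp only [c2, mkInf_apply]; positivity

theorem c1_mul (a b : L1) : lift c1 (mulL a b) = lift c1 a * ((lift c1 b + lift c2 b) / 2) := by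
  rw [lift_mulL c1 c1 ((1 / 2 : ℂ) • (c1 + c2)) (fun s t => by
    simp only [c1, c2, mkInf_apply, lp.coeFn_smul, lp.coeFn_add, Pi.smul_apply, Pi.add_apply,
      Prod.fst_add, Prod.fst_swap, pow_add, smul_eq_mul]
    ring)]
  simp only [map_smul, map_add, smul_apply, add_apply, smul_eq_mul]
  ring

theorem c2_mul (a b : L1) : lift c2 (mulL a b) = lift c2 a * ((lift c1 b + lift c2 b) / 2) := by
  rw [lift_mulL c2 c2 ((1 / 2 : ℂ) • (c1 + c2)) (fun s t => by
    simp only [c1, c2, mkInf_apply, lp.coeFn_smul, lp.coeFn_add, Pi.smul_apply, Pi.add_apply,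
      Prod.snd_add, Prod.snd_swap, pow_add, smul_eq_mul]
    ring)]
  simp only [map_smul, map_add, smul_apply, add_apply, smul_eq_mul]
  ring

theorem lift_pos {a : L1} (ha : ∀ i, 0 ≤ a i) (h1 : lift (1 : Linf ℂ) a = 1) {u : Linf ℂ}
    (hu : ∀ i, 0 < u i) : 0 < lift u a := by
  refine lt_of_le_of_ne (lift_nonneg ha fun i => (hu i).le) fun h => ?_
  have h2 : HasSum (fun i => a i * u i) 0 := by
    rw [h]; exact hasSum_lift u a
  have h2' := (hasSum_zero_iff_of_nonneg fun i => mul_nonneg (ha i) (hu i).le).1 h2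
  have h3 : a = 0 := by
    ext i
    have : a i * u i = 0 := congrFun h2' i
    exact (mul_eq_zero.1 this).resolve_right (hu i).ne'
  rw [h3, map_zero] at h1
  exact zero_ne_one h1

theorem exists_coords : ∃ (D φ : SS → ℝ) (s₀ t₀ : SS), Continuous D ∧ Continuous φ ∧
    (∀ s t, D (s * t) = D s * φ t) ∧ (∀ s t, φ (s * t) = φ s * φ t) ∧ (∀ s, 0 < φ s) ∧
    (∀ s, |D s| ≤ φ s) ∧ D s₀ = 0 ∧ D t₀ ≠ 0 := by
  let p : SS → ℝ := fun s => (jj c1 s).re
  let q : SS → ℝ := fun s => (jj c2 s).re
  have hp0 : ∀ s : SS, 0 < jj c1 s := fun s => lift_pos (coeff_nonneg s.2.1) s.2.2 c1_pos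
  have hq0 : ∀ s : SS, 0 < jj c2 s := fun s => lift_pos (coeff_nonneg s.2.1) s.2.2 c2_pos
  have hp1 : ∀ s, 0 < p s := fun s => (Complex.pos_iff.1 (hp0 s)).1
  have hq1 : ∀ s, 0 < q s := fun s => (Complex.pos_iff.1 (hq0 s)).1
  have hp2 : ∀ s : SS, jj c1 s = p s := fun s =>
    Complex.ext rfl (by simpa using (Complex.pos_iff.1 (hp0 s)).2.symm)
  have hq2 : ∀ s : SS, jj c2 s = q s := fun s =>
    Complex.ext rfl (by simpa using (Complex.pos_iff.1 (hq0 s)).2.symm)
  have hpm : ∀ s t, p (s * t) = p s * ((p t + q t) / 2) := by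
    intro s t
    have : jj c1 (s * t : SS) = jj c1 s * ((jj c1 t + jj c2 t) / 2) := c1_mul _ _
    rw [hp2, hp2, hp2, hq2] at this
    exact_mod_cast this
  have hqm : ∀ s t, q (s * t) = q s * ((p t + q t) / 2) := by
    intro s t
    have : jj c2 (s * t : SS) = jj c2 s * ((jj c1 t + jj c2 t) / 2) := c2_mul _ _
    rw [hq2, hq2, hp2, hq2] at this
    exact_mod_cast this
  have hpc : Continuous p :=
    Complex.continuous_re.comp ((jj c1).continuous.comp continuous_subtype_val)
  have hqc : Continuous q :=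
    Complex.continuous_re.comp ((jj c2).continuous.comp continuous_subtype_val)
  refine ⟨fun s => (p s - q s) / 2, fun s => (p s + q s) / 2, ⟨_, δ_mem (0, 0)⟩, ⟨_, δ_mem (1, 0)⟩,
    by fun_prop, by fun_prop, ?_, ?_, ?_, ?_, ?_, ?_⟩
  · intro s t; simp only [hpm, hqm]; ring
  · intro s t; simp only [hpm, hqm]; ring
  · intro s; have := hp1 s; have := hq1 s; positivity
  · intro s
    have := hp1 s; have := hq1 s
    rw [abs_le]; constructor <;> linarith
  · simp only [p, q, jj_apply, lift_δ, c1, c2, mkInf_apply]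
    norm_num
  · simp only [p, q, jj_apply, lift_δ, c1, c2, mkInf_apply]
    norm_num

end Pool.Agent.P.MP_2f0599_an
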