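import Mathlib

set_option autoImplicit false

namespace Pool.Agent.P.MP_2f0599_an

open Module

theorem plane2 {S : Type} [Mul S] [TopologicalSpace S] (D φ : S → ℝ) (hD : Continuous D)
    (hφ : Continuous φ) (hDm : ∀ s t, D (s * t) = D s * φ t) (hφm : ∀ s t, φ (s * t) = φ s * φ t)
    (hpos : ∀ s, 0 < φ s) (hle : ∀ s, |D s| ≤ φ s) (s₀ t₀ : S) (h₀ : D s₀ = 0) (h₁ : D t₀ ≠ 0)
    (𝕜 : Type) [RCLike 𝕜] :
    ∃ (T : S →ₙ* Module.End 𝕜 (𝕜 × 𝕜)) (X : Set (𝕜 × 𝕜)) (H : Submodule 𝕜 (𝕜 × 𝕜)),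
      (∀ s x, T s x = x.2 • (((D s : 𝕜), (φ s : 𝕜)) : 𝕜 × 𝕜)) ∧
      (Continuous fun p : S × (𝕜 × 𝕜) => T p.1 p.2) ∧
      (∀ K : Set (𝕜 × 𝕜), IsCompact K →
        ∀ g ∈ closure (Set.range fun s : S => fun x : K => T s x), Continuous g) ∧
      (∃ L : Submodule 𝕜 (𝕜 × 𝕜), finrank 𝕜 L = 1 ∧ (L : Set (𝕜 × 𝕜)) ⊆ X) ∧
      (∀ (s : S) (L : Submodule 𝕜 (𝕜 × 𝕜)), finrank 𝕜 L = 1 → (L : Set (𝕜 × 𝕜)) ⊆ X →
        finrank 𝕜 (L.map (T s)) = 1 ∧ (L.map (T s) : Set (𝕜 × 𝕜)) ⊆ X) ∧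
      IsClosed (H : Set (𝕜 × 𝕜)) ∧ (∀ s : S, H.map (T s) ≤ H) ∧ finrank 𝕜 ((𝕜 × 𝕜) ⧸ H) = 1 ∧
      (∀ x : 𝕜 × 𝕜, IsCompact ({y | y - x ∈ H} ∩ X) ∧ Convex ℝ ({y | y - x ∈ H} ∩ X)) ∧
      ¬ ∃ L : Submodule 𝕜 (𝕜 × 𝕜), finrank 𝕜 L = 1 ∧ (L : Set (𝕜 × 𝕜)) ⊆ X ∧
        ∀ s : S, L.map (T s) = L := by
  let v : S → 𝕜 × 𝕜 := fun s => ((D s : 𝕜), (φ s : 𝕜))
  let T : S →ₙ* Module.End 𝕜 (𝕜 × 𝕜) :=
    { toFun := fun s => (LinearMap.snd 𝕜 𝕜 𝕜).smulRight (v s)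
      map_mul' := by
        intro s t
        apply LinearMap.ext
        intro x
        simp only [v, hDm, hφm, LinearMap.smulRight_apply, LinearMap.snd_apply, Module.End.mul_apply,
          Prod.smul_mk, smul_eq_mul, Prod.mk.injEq]
        push_cast
        constructor <;> ring }
  have hT : ∀ s x, T s x = x.2 • v s := fun s x => rfl
  let X : Set (𝕜 × 𝕜) := {x | ‖x.1‖ ≤ ‖x.2‖}
  have hv0 : ∀ s, v s ≠ 0 := by
    intro s h
    have := congrArg Prod.snd h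
    simp only [v, Prod.snd_zero, RCLike.ofReal_eq_zero] at this
    exact (hpos s).ne' this
  have hspan : ∀ s, ((Submodule.span 𝕜 {v s} : Submodule 𝕜 (𝕜 × 𝕜)) : Set (𝕜 × 𝕜)) ⊆ X := by
    intro s x hx
    obtain ⟨c, rfl⟩ := Submodule.mem_span_singleton.1 hx
    simp only [X, v, Set.mem_ofPred_eq, Prod.smul_mk, smul_eq_mul, norm_mul, RCLike.norm_ofReal]
    rw [abs_of_pos (hpos s)]
    exact mul_le_mul_of_nonneg_left (hle s) (norm_nonneg _)
  have hmap : ∀ (s : S) (L : Submodule 𝕜 (𝕜 × 𝕜)), finrank 𝕜 L = 1 → (L : Set (𝕜 × 𝕜)) ⊆ X →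
      L.map (T s) = Submodule.span 𝕜 {v s} := by
    intro s L hL hLX
    apply le_antisymm
    · rintro _ ⟨x, _, rfl⟩
      rw [hT]
      exact Submodule.smul_mem _ _ (Submodule.mem_span_singleton_self _)
    · have hne : L ≠ ⊥ := by
        rintro rfl
        simp at hL
      obtain ⟨x, hx, hx0⟩ := Submodule.exists_mem_ne_zero_of_ne_bot hne
      have hx2 : x.2 ≠ 0 := by
        intro h
        have h1 : ‖x.1‖ ≤ ‖x.2‖ := hLX hx
        rw [h, norm_zero, norm_le_zero_iff] at h1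
        exact hx0 (Prod.ext h1 h)
      rw [Submodule.span_singleton_le_iff_mem]
      refine ⟨(x.2)⁻¹ • x, L.smul_mem _ hx, ?_⟩
      rw [hT]
      simp [hx2]
  refine ⟨T, X, LinearMap.ker (LinearMap.snd 𝕜 𝕜 𝕜), hT, ?_, ?_, ?_, ?_, ?_, ?_, ?_, ?_, ?_⟩
  · simp only [hT, v]
    fun_prop
  · intro K _ g hg
    have hcl : closure (Set.range fun s : S => fun x : K => T s x) ⊆
        {g : K → 𝕜 × 𝕜 | ∀ x y : K, (y : 𝕜 × 𝕜).2 • g x = (x : 𝕜 × 𝕜).2 • g y} ∩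
        {g : K → 𝕜 × 𝕜 | ∀ x : K, (x : 𝕜 × 𝕜).2 = 0 → g x = 0} := by
      apply closure_minimal
      · rintro _ ⟨s, rfl⟩
        refine ⟨fun x y => ?_, fun x hx => ?_⟩
        · simp only [hT]
          rw [smul_comm]
        · simp only [hT, hx, zero_smul]
      · apply IsClosed.inter
        · simp only [Set.ofPred_forall]
          refine isClosed_iInter fun x => isClosed_iInter fun y => isClosed_eq ?_ ?_ <;> fun_prop
        · simp only [Set.ofPred_forall]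
          refine isClosed_iInter fun x => isClosed_iInter fun _ => isClosed_eq ?_ ?_ <;> fun_prop
    obtain ⟨h1, h2⟩ := hcl hg
    by_cases h : ∃ y : K, (y : 𝕜 × 𝕜).2 ≠ 0
    · obtain ⟨y, hy⟩ := h
      have : g = fun x : K => (((y : 𝕜 × 𝕜).2)⁻¹ * (x : 𝕜 × 𝕜).2) • g y := by
        funext x
        rw [mul_smul, ← h1 x y, smul_smul, inv_mul_cancel₀ hy, one_smul]
      rw [this]
      fun_prop
    · push Not at h
      have : g = fun _ => 0 := funext fun x => h2 x (h x)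
      rw [this]
      exact continuous_const
  · exact ⟨Submodule.span 𝕜 {v s₀}, finrank_span_singleton (hv0 s₀), hspan s₀⟩
  · intro s L hL hLX
    rw [hmap s L hL hLX]
    exact ⟨finrank_span_singleton (hv0 s), hspan s⟩
  · exact isClosed_eq continuous_snd continuous_const
  · rintro s _ ⟨x, hx, rfl⟩
    have : x.2 = 0 := hx
    rw [hT, this, zero_smul]
    exact Submodule.zero_mem _
  · rw [((LinearMap.snd 𝕜 𝕜 𝕜).quotKerEquivOfSurjective LinearMap.snd_surjective).finrank_eq]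
    simp
  · intro x
    have : {y : 𝕜 × 𝕜 | y - x ∈ LinearMap.ker (LinearMap.snd 𝕜 𝕜 𝕜)} ∩ X =
        Metric.closedBall (0 : 𝕜) ‖x.2‖ ×ˢ {x.2} := by
      ext y
      simp only [X, LinearMap.mem_ker, LinearMap.snd_apply, Prod.snd_sub, sub_eq_zero,
        Set.mem_inter_iff, Set.mem_ofPred_eq, Set.mem_prod, mem_closedBall_zero_iff,
        Set.mem_singleton_iff]
      constructor
      · rintro ⟨h1, h2⟩; exact ⟨h1 ▸ h2, h1⟩
      · rintro ⟨h1, h2⟩; exact ⟨h2, h2 ▸ h1⟩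
    rw [this]
    exact ⟨(isCompact_closedBall _ _).prod isCompact_singleton,
      (convex_closedBall _ _).prod (convex_singleton _)⟩
  · rintro ⟨L, hL, hLX, hinv⟩
    have h1 := (hmap s₀ L hL hLX).symm.trans (hinv s₀)
    have h2 := (hmap t₀ L hL hLX).symm.trans (hinv t₀)
    have h3 : v t₀ ∈ Submodule.span 𝕜 {v s₀} := by
      rw [h1, ← h2]; exact Submodule.mem_span_singleton_self _
    obtain ⟨c, hc⟩ := Submodule.mem_span_singleton.1 h3
    have := congrArg Prod.fst hc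
    simp only [v, h₀, Prod.smul_mk, RCLike.ofReal_zero, smul_zero] at this
    exact h₁ (by exact_mod_cast this.symm)

end Pool.Agent.P.MP_2f0599_an
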