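import Mathlib
import Pool.Agent.P.MP_2f0599_an.Defs2
import Pool.Agent.P.MP_2f0599_an.Plane2
import Pool.Agent.P.MP_2f0599_an.Main

set_option autoImplicit false

open scoped ENNReal ComplexOrder

namespace Pool.Agent.P.MP_2f0599_an

theorem lift_le_one {a : L1} (ha : ∀ i, 0 ≤ a i) (h1 : lift (1 : Linf ℂ) a = 1) {u : Linf ℂ}
    (hu : ∀ i, u i ≤ 1) : lift u a ≤ 1 := by
  have h := lift_nonneg ha (u := 1 - u) fun i => by
    simp only [lp.coeFn_sub, Pi.sub_apply, sub_nonneg]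
    exact hu i
  rw [map_sub, sub_apply, h1] at h
  exact sub_nonneg.1 h

theorem c1_le (i : I) : c1 i ≤ 1 := by
  simp only [c1, mkInf_apply]
  exact pow_le_one₀ (by positivity) (by norm_num)

theorem c2_le (i : I) : c2 i ≤ 1 := by
  simp only [c2, mkInf_apply]
  exact pow_le_one₀ (by positivity) (by norm_num)

theorem exists_coords2 : ∃ (D φ : Alg →L[ℝ] ℝ) (s₀ t₀ : SS),
    (∀ s t : SS, D (s * t : SS) = D s * φ t) ∧ (∀ s t : SS, φ (s * t : SS) = φ s * φ t) ∧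
    (∀ s : SS, 0 < φ s) ∧ (∀ s : SS, |D s| ≤ φ s) ∧ (∀ s : SS, φ s ≤ 1) ∧
    D s₀ = 0 ∧ D t₀ ≠ 0 := by
  let P : Alg →L[ℝ] ℝ := Complex.reCLM ∘L (jj c1).restrictScalars ℝ
  let Q : Alg →L[ℝ] ℝ := Complex.reCLM ∘L (jj c2).restrictScalars ℝ
  have hP : ∀ a, P a = (jj c1 a).re := fun _ => rfl
  have hQ : ∀ a, Q a = (jj c2 a).re := fun _ => rfl
  have hp0 : ∀ s : SS, 0 < jj c1 s := fun s => lift_pos (coeff_nonneg s.2.1) s.2.2 c1_pos
  have hq0 : ∀ s : SS, 0 < jj c2 s := fun s => lift_pos (coeff_nonneg s.2.1) s.2.2 c2_pos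
  have hp3 : ∀ s : SS, jj c1 s ≤ 1 := fun s => lift_le_one (coeff_nonneg s.2.1) s.2.2 c1_le
  have hq3 : ∀ s : SS, jj c2 s ≤ 1 := fun s => lift_le_one (coeff_nonneg s.2.1) s.2.2 c2_le
  have hp1 : ∀ s : SS, 0 < P s := fun s => (Complex.pos_iff.1 (hp0 s)).1
  have hq1 : ∀ s : SS, 0 < Q s := fun s => (Complex.pos_iff.1 (hq0 s)).1
  have hp4 : ∀ s : SS, P s ≤ 1 := fun s => (Complex.le_def.1 (hp3 s)).1
  have hq4 : ∀ s : SS, Q s ≤ 1 := fun s => (Complex.le_def.1 (hq3 s)).1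
  have hp2 : ∀ s : SS, jj c1 s = (P s : ℝ) := fun s =>
    Complex.ext rfl (by simpa using (Complex.pos_iff.1 (hp0 s)).2.symm)
  have hq2 : ∀ s : SS, jj c2 s = (Q s : ℝ) := fun s =>
    Complex.ext rfl (by simpa using (Complex.pos_iff.1 (hq0 s)).2.symm)
  have hpm : ∀ s t : SS, P (s * t : SS) = P s * ((P t + Q t) / 2) := by
    intro s t
    have : jj c1 (s * t : SS) = jj c1 s * ((jj c1 t + jj c2 t) / 2) := c1_mul _ _
    rw [hp2, hp2, hp2, hq2] at this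
    exact_mod_cast this
  have hqm : ∀ s t : SS, Q (s * t : SS) = Q s * ((P t + Q t) / 2) := by
    intro s t
    have : jj c2 (s * t : SS) = jj c2 s * ((jj c1 t + jj c2 t) / 2) := c2_mul _ _
    rw [hq2, hq2, hp2, hq2] at this
    exact_mod_cast this
  have hD : ∀ a, ((1 / 2 : ℝ) • (P - Q)) a = (P a - Q a) / 2 := fun a => by
    simp only [smul_apply, sub_apply, smul_eq_mul]; ring
  have hφ : ∀ a, ((1 / 2 : ℝ) • (P + Q)) a = (P a + Q a) / 2 := fun a => by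
    simp only [smul_apply, add_apply, smul_eq_mul]; ring
  refine ⟨(1 / 2 : ℝ) • (P - Q), (1 / 2 : ℝ) • (P + Q), ⟨_, δ_mem (0, 0)⟩, ⟨_, δ_mem (1, 0)⟩,
    ?_, ?_, ?_, ?_, ?_, ?_, ?_⟩
  · intro s t; simp only [hD, hφ, hpm, hqm]; ring
  · intro s t; simp only [hφ, hpm, hqm]; ring
  · intro s; have := hp1 s; have := hq1 s; rw [hφ]; positivity
  · intro s
    have := hp1 s; have := hq1 s
    rw [hD, hφ, abs_le]; constructor <;> linarith
  · intro s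
    have := hp4 s; have := hq4 s
    rw [hφ]; linarith
  · simp only [hD, hP, hQ, jj_apply, lift_δ, c1, c2, mkInf_apply]
    norm_num
  · simp only [hD, hP, hQ, jj_apply, lift_δ, c1, c2, mkInf_apply]
    norm_num

theorem not_linFW (𝕜 : Type) [RCLike 𝕜] : ¬ LinFW 𝕜 SS 1 := by
  intro h
  obtain ⟨D, φ, s₀, t₀, h3, h4, h5, h6, h9, h7, h8⟩ := exists_coords2
  obtain ⟨T, X, H, g0, g1, g2, g3, g4, g5, g6, g7, g8, g9⟩ :=
    plane2 (fun s : SS => D s) (fun s : SS => φ s) (D.continuous.comp continuous_subtype_val)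
      (φ.continuous.comp continuous_subtype_val) h3 h4 h5 h6 s₀ t₀ h7 h8 𝕜
  have hn : ∀ (s : SS) (x : 𝕜 × 𝕜), ‖T s x‖ ≤ ‖x‖ := by
    intro s x
    rw [g0, norm_smul]
    have h1 : ‖(((D s : 𝕜), (φ s : 𝕜)) : 𝕜 × 𝕜)‖ ≤ 1 := by
      rw [Prod.norm_def, RCLike.norm_ofReal, RCLike.norm_ofReal, abs_of_pos (h5 s)]
      exact max_le ((h6 s).trans (h9 s)) (h9 s)
    calc ‖x.2‖ * ‖(((D s : 𝕜), (φ s : 𝕜)) : 𝕜 × 𝕜)‖ ≤ ‖x‖ * 1 :=
          mul_le_mul (norm_snd_le x) h1 (norm_nonneg _) (norm_nonneg _)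
      _ = ‖x‖ := mul_one _
  obtain ⟨L, hL, hT⟩ := h (𝕜 × 𝕜) T X H ⟨g2, fun x => g1.comp (Continuous.prodMk_left x), g3,
      fun s L hL => g4 s L hL.1 hL.2, g5, g6, g7, fun x => (g8 x).1⟩ g1
    (fun U hU => by
      obtain ⟨ε, hε, hU⟩ := Metric.mem_nhds_iff.1 hU
      refine ⟨Metric.ball 0 ε, Metric.ball_mem_nhds _ hε, fun s x hx => hU ?_⟩
      rw [mem_ball_zero_iff] at hx ⊢
      exact (hn s x).trans_lt hx)
    (fun x => (g8 x).2)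
    (fun x => ⟨x.2 • ((RCLike.ofRealCLM (K := 𝕜) ∘L D).prod (RCLike.ofRealCLM (K := 𝕜) ∘L φ)),
      fun s => by rw [g0]; rfl⟩)
  exact g9 ⟨L, hL.1, hL.2, hT⟩

end Pool.Agent.P.MP_2f0599_an
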